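import Pool.Agent.Helper36.BN.Exchange

/-!
Bases of minimal span (trellis oriented bases) of the cycle space.
-/

set_option autoImplicit false
set_option linter.unusedSectionVars false

namespace Pool.Agent.Helper36.BN

open Finset Module

section abstract

variable {E : Type} [Fintype E] [DecidableEq E] {ι : Type} [Fintype ι] [DecidableEq ι]
  {C : Submodule (ZMod 2) (E → ZMod 2)}

/-- the largest value of `f` on the support -/
def top (f : E → ℕ) (x : E → ZMod 2) : ℕ := (supp x).sup f

theorem supp_nonempty {x : E → ZMod 2} (hx : x ≠ 0) : (supp x).Nonempty := by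
  rw [nonempty_iff_ne_empty]
  intro h
  apply hx
  funext e
  by_contra h'
  have : e ∈ supp x := mem_supp.2 h'
  rw [h] at this
  simp at this

theorem top_attained (f : E → ℕ) {x : E → ZMod 2} (hx : x ≠ 0) : ∃ e, x e ≠ 0 ∧ f e = top f x := by
  obtain ⟨e, he, h⟩ := exists_mem_eq_sup (supp x) (supp_nonempty hx) f
  exact ⟨e, mem_supp.1 he, h.symm⟩

theorem le_top (f : E → ℕ) {x : E → ZMod 2} {e : E} (he : x e ≠ 0) : f e ≤ top f x :=
  le_sup (f := f) (mem_supp.2 he)

theorem top_add_le (f : E → ℕ) (x y : E → ZMod 2) : top f (x + y) ≤ max (top f x) (top f y) := by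
  unfold top
  rw [Finset.sup_le_iff]
  intro e he
  rw [mem_supp] at he
  by_cases h : x e = 0
  · have : y e ≠ 0 := by
      intro h'; apply he; simp [h, h']
    exact le_max_of_le_right (le_sup (f := f) (mem_supp.2 this))
  · exact le_max_of_le_left (le_sup (f := f) (mem_supp.2 h))

theorem top_add_lt (f : E → ℕ) (hf : Function.Injective f) {x y : E → ZMod 2} (hx : x ≠ 0)
    (hy : y ≠ 0) (hxy : x + y ≠ 0) (h : top f x = top f y) : top f (x + y) < top f x := by
  obtain ⟨e, he, hef⟩ := top_attained f hx
  obtain ⟨e', he', hef'⟩ := top_attained f hy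
  have hee : e' = e := hf (by rw [hef, hef', h])
  subst hee
  obtain ⟨g, hg, hgf⟩ := top_attained f hxy
  have h1 : top f (x + y) ≤ top f x := by
    have := top_add_le f x y
    rwa [← h, max_self] at this
  rcases lt_or_eq_of_le h1 with h2 | h2
  · exact h2
  · exfalso
    have : g = e' := hf (by rw [hgf, h2, hef])
    subst this
    apply hg
    rw [Pi.add_apply, z2_ne.1 he, z2_ne.1 he']
    exact z2_add_self 1

/-- no two members of the basis have the same top -/
def Distinct (f : E → ℕ) (b : Basis ι (ZMod 2) C) : Prop :=
  ∀ i j, top f (b i : E → ZMod 2) = top f (b j : E → ZMod 2) → i = j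

theorem coe_ne_zero (b : Basis ι (ZMod 2) C) (i : ι) : (b i : E → ZMod 2) ≠ 0 := by
  intro h
  exact b.ne_zero i (Subtype.ext h)

theorem distinct_of_min (f g : E → ℕ) (hf : Function.Injective f) (b : Basis ι (ZMod 2) C)
    (hb : ∀ b' : Basis ι (ZMod 2) C, ∑ i, (top f (b i : E → ZMod 2) + top g (b i : E → ZMod 2)) ≤
      ∑ i, (top f (b' i : E → ZMod 2) + top g (b' i : E → ZMod 2))) : Distinct f b := by
  have key : ∀ i j, i ≠ j → top f (b i : E → ZMod 2) = top f (b j : E → ZMod 2) →
      top g (b j : E → ZMod 2) ≤ top g (b i : E → ZMod 2) → False := by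
    intro i j hij h1 h2
    have hne : b i + b j ≠ 0 := by
      intro h
      have h3 : b.repr (b i + b j) i = 0 := by rw [h]; simp
      rw [map_add, Finsupp.add_apply, b.repr_self, b.repr_self, Finsupp.single_eq_same,
        Finsupp.single_eq_of_ne hij] at h3
      simp at h3
    have hrep : b.repr (b i + b j) i ≠ 0 := by
      rw [map_add, Finsupp.add_apply, b.repr_self, b.repr_self, Finsupp.single_eq_same,
        Finsupp.single_eq_of_ne hij]
      simp
    obtain ⟨b', hb'⟩ := exchange b (b i + b j) i hrep
    have hne' : (b i : E → ZMod 2) + (b j : E → ZMod 2) ≠ 0 := by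
      intro h
      exact hne (Subtype.ext h)
    have h4 : top f ((b i + b j : C) : E → ZMod 2) < top f (b i : E → ZMod 2) :=
      top_add_lt f hf (coe_ne_zero b i) (coe_ne_zero b j) hne' h1
    have h5 : top g ((b i + b j : C) : E → ZMod 2) ≤ top g (b i : E → ZMod 2) := by
      have := top_add_le g (b i : E → ZMod 2) (b j : E → ZMod 2)
      rw [max_eq_left h2] at this
      exact this
    have h6 : ∑ k, (top f (b' k : E → ZMod 2) + top g (b' k : E → ZMod 2)) <
        ∑ k, (top f (b k : E → ZMod 2) + top g (b k : E → ZMod 2)) := by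
      apply sum_lt_sum
      · intro k _
        rw [hb' k]
        by_cases hk : k = i
        · subst hk; rw [if_pos rfl]; omega
        · rw [if_neg hk]
      · refine ⟨i, mem_univ i, ?_⟩
        rw [hb' i, if_pos rfl]; omega
    exact absurd (hb b') (not_le.2 h6)
  intro i j h
  by_contra hij
  rcases le_total (top g (b j : E → ZMod 2)) (top g (b i : E → ZMod 2)) with h1 | h1
  · exact key i j hij h h1
  · exact key j i (Ne.symm hij) h.symm h1

/-- a basis with distinct tops for `f` and for `g` -/
theorem exists_distinct (f g : E → ℕ) (hf : Function.Injective f) (hg : Function.Injective g)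
    (b₀ : Basis ι (ZMod 2) C) : ∃ b : Basis ι (ZMod 2) C, Distinct f b ∧ Distinct g b := by
  obtain ⟨b, hb⟩ : ∃ b : Basis ι (ZMod 2) C, ∀ b' : Basis ι (ZMod 2) C,
      ∑ i, (top f (b i : E → ZMod 2) + top g (b i : E → ZMod 2)) ≤
      ∑ i, (top f (b' i : E → ZMod 2) + top g (b' i : E → ZMod 2)) := by
    let P : Basis ι (ZMod 2) C → ℕ := fun b =>
      ∑ i, (top f (b i : E → ZMod 2) + top g (b i : E → ZMod 2))
    have hne : (Set.range P).Nonempty := ⟨_, b₀, rfl⟩
    obtain ⟨b, hb⟩ := Nat.sInf_mem hne
    refine ⟨b, fun b' => ?_⟩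
    change P b ≤ P b'
    rw [hb]
    exact Nat.sInf_le ⟨b', rfl⟩
  refine ⟨b, distinct_of_min f g hf b hb, distinct_of_min g f hg b fun b' => ?_⟩
  have := hb b'
  simp only [add_comm (top g _)]
  exact this

/-- the members that occur in a short vector are short -/
theorem short_members (f : E → ℕ) (hf : Function.Injective f) (b : Basis ι (ZMod 2) C)
    (hb : Distinct f b) (y : C) (p : ℕ) (hy : ∀ e, (y : E → ZMod 2) e ≠ 0 → f e ≤ p) (j : ι)
    (hj : b.repr y j ≠ 0) : top f (b j : E → ZMod 2) ≤ p := by
  classical
  let J : Finset ι := univ.filter fun j => b.repr y j ≠ 0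
  have hJ : J.Nonempty := ⟨j, by simp [J, hj]⟩
  obtain ⟨m, hm, hmax⟩ := exists_max_image J (fun j => top f (b j : E → ZMod 2)) hJ
  obtain ⟨e, he, hef⟩ := top_attained f (coe_ne_zero b m)
  have hye : (y : E → ZMod 2) e = ∑ k, b.repr y k * (b k : E → ZMod 2) e := by
    have h1 : ((∑ k, b.repr y k • b k : C) : E → ZMod 2) =
        ∑ k, b.repr y k • (b k : E → ZMod 2) := by
      rw [Submodule.coe_sum]
      rfl
    rw [b.sum_repr y] at h1
    rw [h1, Finset.sum_apply]
    rfl
  have hye1 : (y : E → ZMod 2) e ≠ 0 := by
    rw [hye, sum_eq_single m]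
    · rw [z2_ne.1 he, mul_one]
      exact (mem_filter.1 hm).2
    · intro k _ hkm
      by_cases hk : b.repr y k = 0
      · rw [hk, zero_mul]
      · have h2 := hmax k (by simp [J, hk])
        have h3 : (b k : E → ZMod 2) e = 0 := by
          by_contra h3
          have h4 := le_top f h3
          rw [hef] at h4
          exact hkm (hb k m (le_antisymm h2 h4))
        rw [h3, mul_zero]
    · intro h; exact absurd (mem_univ m) h
  have h5 := hy e hye1
  rw [hef] at h5
  exact (hmax j (by simp [J, hj])).trans h5

end abstract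

section graph

variable {V E : Type} [Fintype V] [DecidableEq V] [Fintype E] [DecidableEq E]

/-- the part of a vector up to `p` -/
def cut (f : E → ℕ) (p : ℕ) (x : E → ZMod 2) : E → ZMod 2 := fun e => if f e ≤ p then x e else 0

/-- the vertices on an edge up to `p` and on an edge after `p` -/
def bdry (s t : E → V) (f : E → ℕ) (p : ℕ) : Finset V :=
  univ.filter fun v => (∃ e, f e ≤ p ∧ (s e = v ∨ t e = v)) ∧ ∃ e, p < f e ∧ (s e = v ∨ t e = v)

theorem sum_inc (s t : E → V) (e : E) : ∑ v, inc s t v e = 0 := by
  unfold inc
  rw [sum_add_distrib]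
  simp [z2_add_self]

theorem cut_mem (s t : E → V) (f : E → ℕ) (p : ℕ) (x : E → ZMod 2) (hx : x ∈ cyc s t univ)
    (v₀ : V) (h : ∀ v ∈ bdry s t f p, v ≠ v₀ → ∑ e, cut f p x e * inc s t v e = 0) :
    cut f p x ∈ cyc s t univ := by
  have h1 : ∀ v, v ≠ v₀ → ∑ e, cut f p x e * inc s t v e = 0 := by
    intro v hv
    by_cases hb : v ∈ bdry s t f p
    · exact h v hb hv
    · have hb' : ¬ ((∃ e, f e ≤ p ∧ (s e = v ∨ t e = v)) ∧
          ∃ e, p < f e ∧ (s e = v ∨ t e = v)) := by
        intro h'; exact hb (by simp [bdry, h'])
      by_cases h2 : ∃ e, f e ≤ p ∧ (s e = v ∨ t e = v)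
      · have h3 : ∀ e, p < f e → inc s t v e = 0 := by
          intro e he
          have : ¬ (s e = v ∨ t e = v) := fun h' => hb' ⟨h2, e, he, h'⟩
          push Not at this
          simp [inc, this.1, this.2]
        rw [← hx.2 v]
        refine sum_congr rfl fun e _ => ?_
        unfold cut
        split_ifs with h4
        · rfl
        · rw [h3 e (not_le.1 h4)]; simp
      · refine sum_eq_zero fun e _ => ?_
        unfold cut
        split_ifs with h4
        · have : ¬ (s e = v ∨ t e = v) := fun h' => h2 ⟨e, h4, h'⟩
          push Not at this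
          simp [inc, this.1, this.2]
        · simp
  refine ⟨fun e he => absurd (mem_univ e) he, fun v => ?_⟩
  by_cases hv : v = v₀
  · subst hv
    have h2 : ∑ w, ∑ e, cut f p x e * inc s t w e = 0 := by
      rw [sum_comm]
      refine sum_eq_zero fun e _ => ?_
      rw [← mul_sum, sum_inc, mul_zero]
    rw [sum_eq_single v] at h2
    · exact h2
    · intro w _ hw; exact h1 w hw
    · intro h'; exact absurd (mem_univ v) h'
  · exact h1 v hv

/-- **Bases of small ply from orderings of the edges.** -/
theorem ply_le (s t : E → V) (f : E → ℕ) (hf : Function.Injective f) :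
    ∃ b : Basis (Fin (finrank (ZMod 2) (cyc s t (univ : Finset E)))) (ZMod 2)
      (cyc s t (univ : Finset E)),
      ∀ e, ply b e ≤ max 1 (bdry s t f (f e)).card := by
  classical
  let N : ℕ := univ.sup f
  have hN : ∀ e, f e ≤ N := fun e => le_sup (f := f) (mem_univ e)
  let g : E → ℕ := fun e => N - f e
  have hg : Function.Injective g := by
    intro e e' h
    apply hf
    have h1 := hN e
    have h2 := hN e'
    simp only [g] at h
    omega
  obtain ⟨b, hbf, hbg⟩ := exists_distinct f g hf hg
    (finBasis (ZMod 2) (cyc s t (univ : Finset E)))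
  refine ⟨b, fun e₀ => ?_⟩
  set p := f e₀ with hp
  -- the members that are active after `p`
  let A : Finset (Fin (finrank (ZMod 2) (cyc s t (univ : Finset E)))) :=
    univ.filter fun i => (∃ e, (b i : E → ZMod 2) e ≠ 0 ∧ f e ≤ p) ∧ p < top f (b i : E → ZMod 2)
  have hA1 : ply b e₀ ≤ A.card + 1 := by
    have hsub : (univ.filter fun i => (b i : E → ZMod 2) e₀ ≠ 0) ⊆
        A ∪ univ.filter fun i => top f (b i : E → ZMod 2) = p := by
      intro i hi
      simp only [mem_filter, mem_univ, true_and, mem_union, A] at hi ⊢
      have h1 := le_top f hi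
      rcases lt_or_eq_of_le h1 with h2 | h2
      · left; exact ⟨⟨e₀, hi, le_rfl⟩, h2⟩
      · right; exact h2.symm
    have hone : (univ.filter fun i => top f (b i : E → ZMod 2) = p).card ≤ 1 := by
      rw [card_le_one]
      intro i hi j hj
      simp only [mem_filter, mem_univ, true_and] at hi hj
      exact hbf i j (hi.trans hj.symm)
    calc ply b e₀ ≤ _ := card_le_card hsub
      _ ≤ _ := card_union_le _ _
      _ ≤ _ := by omega
  -- the linear map
  have hinj : ∀ (v₀ : V) (c : A → ZMod 2),
      (∀ v ∈ (bdry s t f p).erase v₀, ∑ e, cut f p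
        (∑ i : A, c i • (b i.1 : E → ZMod 2)) e * inc s t v e = 0) → c = 0 := by
    intro v₀ c hc
    let x : cyc s t (univ : Finset E) := ∑ i : A, c i • b i.1
    have hxc : (x : E → ZMod 2) = ∑ i : A, c i • (b i.1 : E → ZMod 2) := by
      simp [x]
    have hy : cut f p (x : E → ZMod 2) ∈ cyc s t (univ : Finset E) := by
      apply cut_mem s t f p _ x.2 v₀
      intro v hv hv0
      rw [hxc]
      exact hc v (mem_erase.2 ⟨hv0, hv⟩)
    let y : cyc s t (univ : Finset E) := ⟨_, hy⟩
    let z : cyc s t (univ : Finset E) := x - y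
    have hz : ∀ e, (z : E → ZMod 2) e = if f e ≤ p then 0 else (x : E → ZMod 2) e := by
      intro e
      change (x : E → ZMod 2) e - cut f p (x : E → ZMod 2) e = _
      unfold cut
      split_ifs <;> simp
    have h1 : ∀ i ∈ A, b.repr y i = 0 := by
      intro i hi
      by_contra h
      have h2 := short_members f hf b hbf y p (by
        intro e he
        by_contra h3
        apply he
        change cut f p (x : E → ZMod 2) e = 0
        unfold cut
        rw [if_neg h3]) i h
      have h3 := (mem_filter.1 hi).2.2
      omega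
    have h2 : ∀ i ∈ A, b.repr z i = 0 := by
      intro i hi
      by_contra h
      obtain ⟨⟨e, he, hep⟩, h4⟩ := (mem_filter.1 hi).2
      have hpN : p < N := by
        obtain ⟨e', he', hef'⟩ := top_attained f (coe_ne_zero b i)
        have := hN e'
        omega
      have h3 := short_members g hg b hbg z (N - p - 1) (by
        intro e' he'
        rw [hz] at he'
        have h5 : ¬ f e' ≤ p := by
          intro h6; rw [if_pos h6] at he'; exact he' rfl
        simp only [g]
        omega) i h
      have h5 := le_top g he
      simp only [g] at h5 h3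
      have := hN e
      omega
    have h3 : ∀ i ∈ A, b.repr x i = 0 := by
      intro i hi
      have : x = y + z := by simp [z]
      rw [this, map_add, Finsupp.add_apply, h1 i hi, h2 i hi, add_zero]
    funext i
    have h4 := h3 i.1 i.2
    have h5 : b.repr x i.1 = c i := by
      simp only [x, map_sum, map_smul, b.repr_self, Finsupp.finsetSum_apply, Finsupp.smul_apply]
      rw [sum_eq_single i]
      · simp
      · intro j _ hj
        rw [Finsupp.single_eq_of_ne]
        · simp
        · intro h; exact hj (Subtype.ext h.symm)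
      · intro h; exact absurd (mem_univ i) h
    rw [← h5, h4]; rfl
  have hcard : ∀ v₀ : V, A.card ≤ ((bdry s t f p).erase v₀).card := by
    intro v₀
    let W := (bdry s t f p).erase v₀
    let F : (A → ZMod 2) →ₗ[ZMod 2] (W → ZMod 2) :=
      { toFun := fun c v => ∑ e, cut f p (∑ i : A, c i • (b i.1 : E → ZMod 2)) e * inc s t v.1 e
        map_add' := by
          intro c d; funext v
          simp only [Pi.add_apply]
          rw [← sum_add_distrib]
          refine sum_congr rfl fun e _ => ?_
          rw [← add_mul]
          congr 1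
          unfold cut
          split_ifs
          · simp [add_smul, sum_add_distrib]
          · simp
        map_smul' := by
          intro a c; funext v
          simp only [Pi.smul_apply, RingHom.id_apply, smul_eq_mul]
          rw [mul_sum]
          refine sum_congr rfl fun e _ => ?_
          rw [← mul_assoc]
          congr 1
          unfold cut
          split_ifs
          · simp [mul_sum, mul_assoc]
          · simp }
    have hF : Function.Injective F := by
      rw [← LinearMap.ker_eq_bot, LinearMap.ker_eq_bot']
      intro c hc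
      apply hinj v₀ c
      intro v hv
      exact congrFun hc ⟨v, hv⟩
    have := LinearMap.finrank_le_finrank_of_injective hF
    rw [Module.finrank_fintype_fun_eq_card, Module.finrank_fintype_fun_eq_card, Fintype.card_coe,
      Fintype.card_coe] at this
    exact this
  rcases (bdry s t f p).eq_empty_or_nonempty with h | ⟨v₀, hv₀⟩
  · have := hcard (s e₀)
    rw [h] at this
    simp at this
    rw [this] at hA1
    simp at hA1
    exact hA1.trans (le_max_left _ _)
  · have h1 := hcard v₀
    rw [card_erase_of_mem hv₀] at h1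
    have h2 : 0 < (bdry s t f p).card := card_pos.2 ⟨v₀, hv₀⟩
    refine le_trans ?_ (le_max_right _ _)
    omega

end graph

end Pool.Agent.Helper36.BN
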