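import Pool.Agent.Helper36.BN.Cheap

/-!
If for all weights of the coordinates a binary linear code has a cheap basis, then it has a basis
in which every coordinate is used few times.
-/

set_option autoImplicit false
set_option linter.unusedSectionVars false

namespace Pool.Agent.Helper36.BN

open Finset Module

section

variable {E : Type} [Fintype E] [DecidableEq E] {ι : Type} [Fintype ι] [DecidableEq ι]
  {C : Submodule (ZMod 2) (E → ZMod 2)}

/-- the number of members of a basis that use a coordinate -/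
noncomputable def ply (b : Basis ι (ZMod 2) C) (e : E) : ℕ :=
  (univ.filter fun i => (b i : E → ZMod 2) e ≠ 0).card

/-- the exchange of one basis vector -/
theorem exchange (b : Basis ι (ZMod 2) C) (y : C) (j : ι) (h : b.repr y j ≠ 0) :
    ∃ b' : Basis ι (ZMod 2) C, ∀ i, b' i = if i = j then y else b i := by
  classical
  let v : ι → C := fun i => if i = j then y else b i
  have hspan : ⊤ ≤ Submodule.span (ZMod 2) (Set.range v) := by
    have hb : ∀ i, b i ∈ Submodule.span (ZMod 2) (Set.range v) := by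
      intro i
      by_cases hij : i = j
      · subst hij
        have hy : y ∈ Submodule.span (ZMod 2) (Set.range v) := by
          apply Submodule.subset_span
          exact ⟨i, by simp [v]⟩
        have hsum : y = b.repr y i • b i + ∑ k ∈ univ.erase i, b.repr y k • b k := by
          conv_lhs => rw [← b.sum_repr y]
          rw [add_comm, sum_erase_add _ _ (mem_univ i)]
        have hother : ∑ k ∈ univ.erase i, b.repr y k • b k ∈
            Submodule.span (ZMod 2) (Set.range v) := by
          apply Submodule.sum_mem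
          intro k hk
          apply Submodule.smul_mem
          apply Submodule.subset_span
          exact ⟨k, by simp [v, ne_of_mem_erase hk]⟩
        rw [z2_ne.1 h, one_smul] at hsum
        have : b i = y - ∑ k ∈ univ.erase i, b.repr y k • b k := eq_sub_of_add_eq hsum.symm
        rw [this]
        exact Submodule.sub_mem _ hy hother
      · apply Submodule.subset_span
        exact ⟨i, by simp [v, hij]⟩
    rw [← b.span_eq, Submodule.span_le]
    rintro _ ⟨i, rfl⟩
    exact hb i
  have hli : LinearIndependent (ZMod 2) v := by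
    apply linearIndependent_of_top_le_span_of_card_eq_finrank hspan
    rw [Module.finrank_eq_card_basis b]
  exact ⟨Basis.mk hli hspan, fun i => by rw [Basis.mk_apply]⟩

/-- a system of exchanges between two bases -/
theorem exchanges (b b' : Basis ι (ZMod 2) C) :
    ∃ σ : Equiv.Perm ι, ∀ i, b.repr (b' i) (σ i) ≠ 0 := by
  classical
  have hdet : (b.toMatrix b').det ≠ 0 := by
    have := b.invertibleToMatrix b'
    exact ((b.toMatrix b').isUnit_det_of_invertible).ne_zero
  rw [Matrix.det_apply'] at hdet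
  obtain ⟨σ, -, hσ⟩ := exists_ne_zero_of_sum_ne_zero hdet
  refine ⟨σ, fun i hi => hσ ?_⟩
  rw [prod_eq_zero (mem_univ i) hi, mul_zero]

/-- the potential -/
noncomputable def pot (b : Basis ι (ZMod 2) C) : ℕ := ∑ e, 2 ^ ply b e

/-- one if the coordinate is used -/
def use (x : E → ZMod 2) (e : E) : ℕ := if x e ≠ 0 then 1 else 0

theorem use_le (x : E → ZMod 2) (e : E) : use x e ≤ 1 := by unfold use; split_ifs <;> simp

theorem wt_eq (w : E → ℕ) (x : E → ZMod 2) : wt w x = ∑ e, use x e * w e := by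
  unfold wt use
  exact sum_congr rfl fun e _ => by split_ifs <;> simp

/-- the uses outside one index -/
noncomputable def rest (b : Basis ι (ZMod 2) C) (j : ι) (e : E) : ℕ :=
  ((univ.erase j).filter fun i => (b i : E → ZMod 2) e ≠ 0).card

theorem ply_eq (b : Basis ι (ZMod 2) C) (j : ι) (e : E) :
    ply b e = rest b j e + use (b j : E → ZMod 2) e := by
  unfold ply rest use
  rw [← insert_erase (mem_univ j), filter_insert]
  split_ifs with h
  · rw [card_insert_of_notMem]
    · simp
    · simp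
  · simp

theorem two_pow_use (x : E → ZMod 2) (e : E) : 2 ^ use x e = 1 + use x e := by
  unfold use; split_ifs <;> simp

/-- the local optimality of a minimizer -/
theorem local_opt (b : Basis ι (ZMod 2) C) (hb : ∀ b' : Basis ι (ZMod 2) C, pot b ≤ pot b')
    (y : C) (j : ι) (h : b.repr y j ≠ 0) :
    wt (fun e => 2 ^ ply b e) (b j : E → ZMod 2) ≤
      2 * wt (fun e => 2 ^ ply b e) (y : E → ZMod 2) := by
  obtain ⟨b', hb'⟩ := exchange b y j h
  have hrest : ∀ e, rest b' j e = rest b j e := by
    intro e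
    unfold rest
    congr 1
    apply filter_congr
    intro i hi
    rw [hb' i, if_neg (ne_of_mem_erase hi)]
  have h1 := hb b'
  unfold pot at h1
  have h2 : ∀ e, 2 ^ ply b e = 2 ^ rest b j e + 2 ^ rest b j e * use (b j : E → ZMod 2) e := by
    intro e
    rw [ply_eq b j e, pow_add, two_pow_use]; ring
  have h3 : ∀ e, 2 ^ ply b' e = 2 ^ rest b j e + 2 ^ rest b j e * use (y : E → ZMod 2) e := by
    intro e
    rw [ply_eq b' j e, pow_add, two_pow_use, hrest e, hb' j, if_pos rfl]; ring
  rw [sum_congr rfl fun e _ => h2 e, sum_congr rfl fun e _ => h3 e, sum_add_distrib,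
    sum_add_distrib] at h1
  have h4 : ∑ e, 2 ^ rest b j e * use (b j : E → ZMod 2) e ≤
      ∑ e, 2 ^ rest b j e * use (y : E → ZMod 2) e := by omega
  rw [wt_eq, wt_eq]
  calc ∑ e, use (b j : E → ZMod 2) e * 2 ^ ply b e
      = 2 * ∑ e, 2 ^ rest b j e * use (b j : E → ZMod 2) e := by
        rw [mul_sum]
        refine sum_congr rfl fun e _ => ?_
        rw [h2 e]
        unfold use
        split_ifs <;> ring
    _ ≤ 2 * ∑ e, 2 ^ rest b j e * use (y : E → ZMod 2) e := Nat.mul_le_mul_left _ h4
    _ ≤ 2 * ∑ e, use (y : E → ZMod 2) e * 2 ^ ply b e := by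
        apply Nat.mul_le_mul_left
        refine sum_le_sum fun e _ => ?_
        rw [mul_comm]
        apply Nat.mul_le_mul_left
        apply Nat.pow_le_pow_right (by norm_num)
        rw [ply_eq b j e]; omega

/-- the sum of the weights of the members of a basis -/
theorem sum_wt (b : Basis ι (ZMod 2) C) (w : E → ℕ) :
    ∑ i, wt w (b i : E → ZMod 2) = ∑ e, ply b e * w e := by
  simp only [wt]
  rw [sum_comm]
  refine sum_congr rfl fun e _ => ?_
  rw [← sum_filter, sum_const, smul_eq_mul]
  rfl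

theorem arith (p M : ℕ) : 2 ^ p * (M - p) ≤ 2 ^ M := by
  rcases le_or_gt p M with h | h
  · have h1 : M - p ≤ 2 ^ (M - p) := (Nat.lt_two_pow_self).le
    calc 2 ^ p * (M - p) ≤ 2 ^ p * 2 ^ (M - p) := Nat.mul_le_mul_left _ h1
      _ = 2 ^ M := by rw [← pow_add]; congr 1; omega
  · have : M - p = 0 := by omega
    simp [this]

/-- **Cheap bases for all weights give a basis of small ply.** -/
theorem small_ply (L : ℕ) (h : ∀ w : E → ℕ, ∃ b : Basis ι (ZMod 2) C,
    ∑ i, wt w (b i : E → ZMod 2) ≤ L * ∑ e, w e) :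
    ∃ b : Basis ι (ZMod 2) C, ∀ e, ply b e ≤ 2 * L + Nat.log 2 (Fintype.card E) := by
  classical
  obtain ⟨b₀, -⟩ := h fun _ => 0
  obtain ⟨b, hb⟩ : ∃ b : Basis ι (ZMod 2) C, ∀ b' : Basis ι (ZMod 2) C, pot b ≤ pot b' := by
    have hne : (Set.range (pot : Basis ι (ZMod 2) C → ℕ)).Nonempty := ⟨_, b₀, rfl⟩
    obtain ⟨b, hb⟩ := Nat.sInf_mem hne
    exact ⟨b, fun b' => by rw [hb]; exact Nat.sInf_le ⟨b', rfl⟩⟩
  refine ⟨b, fun e₀ => ?_⟩
  obtain ⟨b', hb'⟩ := h fun e => 2 ^ ply b e
  obtain ⟨σ, hσ⟩ := exchanges b b'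
  have h1 : ∑ i, wt (fun e => 2 ^ ply b e) (b i : E → ZMod 2) ≤
      2 * ∑ i, wt (fun e => 2 ^ ply b e) (b' i : E → ZMod 2) := by
    rw [← Equiv.sum_comp σ, mul_sum]
    exact sum_le_sum fun i _ => local_opt b hb (b' i) (σ i) (hσ i)
  rw [sum_wt] at h1
  have h2 : ∑ e, ply b e * 2 ^ ply b e ≤ 2 * L * ∑ e, 2 ^ ply b e := by
    calc _ ≤ _ := h1
      _ ≤ 2 * (L * ∑ e, 2 ^ ply b e) := Nat.mul_le_mul_left _ hb'
      _ = _ := by ring
  by_cases hM : ply b e₀ ≤ 2 * L
  · omega
  have h3 : ∑ e, 2 ^ ply b e * (ply b e - 2 * L) ≤ ∑ e, 2 ^ ply b e * (2 * L - ply b e) := by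
    have h4 : ∀ e, ply b e * 2 ^ ply b e + 2 ^ ply b e * (2 * L - ply b e) =
        2 * L * 2 ^ ply b e + 2 ^ ply b e * (ply b e - 2 * L) := by
      intro e
      have h5 : ply b e + (2 * L - ply b e) = 2 * L + (ply b e - 2 * L) := by omega
      calc _ = 2 ^ ply b e * (ply b e + (2 * L - ply b e)) := by ring
        _ = _ := by rw [h5]; ring
    have h5 := sum_congr rfl fun e (_ : e ∈ (univ : Finset E)) => h4 e
    rw [sum_add_distrib, sum_add_distrib, ← mul_sum] at h5
    omega
  have h4 : ∑ e, 2 ^ ply b e * (2 * L - ply b e) ≤ Fintype.card E * 2 ^ (2 * L) := by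
    calc _ ≤ ∑ _e : E, 2 ^ (2 * L) := sum_le_sum fun e _ => arith _ _
      _ = _ := by simp
  have h5 : 2 ^ ply b e₀ ≤ Fintype.card E * 2 ^ (2 * L) := by
    calc 2 ^ ply b e₀ ≤ 2 ^ ply b e₀ * (ply b e₀ - 2 * L) := Nat.le_mul_of_pos_right _ (by omega)
      _ ≤ ∑ e, 2 ^ ply b e * (ply b e - 2 * L) :=
        single_le_sum (f := fun e => 2 ^ ply b e * (ply b e - 2 * L)) (fun _ _ => Nat.zero_le _)
          (mem_univ e₀)
      _ ≤ _ := h3.trans h4
  have h6 : 2 ^ (ply b e₀ - 2 * L) ≤ Fintype.card E := by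
    have : 2 ^ ply b e₀ = 2 ^ (ply b e₀ - 2 * L) * 2 ^ (2 * L) := by
      rw [← pow_add]; congr 1; omega
    rw [this] at h5
    exact Nat.le_of_mul_le_mul_right h5 (by positivity)
  have h7 := Nat.le_log_of_pow_le (by norm_num) h6
  omega

end

end Pool.Agent.Helper36.BN
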