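import Pool.Agent.Helper36.BN.Short

/-!
Every multigraph has, for all weights of the edges, a generating system of its cycle space whose
total weight is at most `L` times the total weight of the edges, `L` logarithmic.
-/

set_option autoImplicit false
set_option linter.unusedSectionVars false

namespace Pool.Agent.Helper36.BN

open Finset

section

variable {V E : Type} [Fintype V] [DecidableEq V] [Fintype E] [DecidableEq E]

/-- the weight of a vector: the sum of the weights of the elements of its support -/
def wt (w : E → ℕ) (x : E → ZMod 2) : ℕ := ∑ e, if x e ≠ 0 then w e else 0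

theorem z2 (a : ZMod 2) : a = 0 ∨ a = 1 := by revert a; decide

theorem z2_ne {a : ZMod 2} : a ≠ 0 ↔ a = 1 := by revert a; decide

theorem z2_add_self (a : ZMod 2) : a + a = 0 := by revert a; decide

theorem z2_eq_of_add {a b : ZMod 2} (h : a + b = 0) : a = b := by
  revert h; revert a b; decide

/-- the sum of the weights of the vectors in a list -/
def total (w : E → ℕ) (X : List (E → ZMod 2)) : ℕ := (X.map (wt w)).sum

/-- the span of the vectors of a list -/
def spn (X : List (E → ZMod 2)) : Submodule (ZMod 2) (E → ZMod 2) :=
  Submodule.span (ZMod 2) {x | x ∈ X}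

theorem wt_le (w : E → ℕ) (x : E → ZMod 2) (e₀ : E) (h : ∀ e ∈ supp x, w e ≤ w e₀) :
    wt w x ≤ (supp x).card * w e₀ := by
  unfold wt
  rw [← sum_filter]
  exact sum_le_card_nsmul _ _ _ h

theorem cyc_mono {s t : E → V} {F F' : Finset E} (h : F' ⊆ F) : cyc s t F' ≤ cyc s t F :=
  fun _ hx => ⟨fun e he => hx.1 e fun h' => he (h h'), hx.2⟩

theorem cyc_erase {s t : E → V} {F : Finset E} {e : E} {x : E → ZMod 2} (hx : x ∈ cyc s t F)
    (he : x e = 0) : x ∈ cyc s t (F.erase e) := by
  refine ⟨fun e' he' => ?_, hx.2⟩
  by_cases h : e' = e
  · rw [h, he]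
  · exact hx.1 e' fun h' => he' (mem_erase.2 ⟨h, h'⟩)

/-- adding a vector -/
theorem span_cons {s t : E → V} {F : Finset E} {e : E} {c : E → ZMod 2} (hc : c ∈ cyc s t F)
    (he : c e ≠ 0) {X : List (E → ZMod 2)} (hX : spn X = cyc s t (F.erase e)) :
    spn (c :: X) = cyc s t F := by
  apply le_antisymm
  · unfold spn
    rw [Submodule.span_le]
    rintro x hx
    have hx' : x = c ∨ x ∈ X := List.mem_cons.1 hx
    rcases hx' with h | h
    · rw [h]; exact hc
    · have : x ∈ spn X := Submodule.subset_span h
      rw [hX] at this
      exact cyc_mono (erase_subset e F) this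
  · intro x hx
    have hsub : spn X ≤ spn (c :: X) := Submodule.span_mono fun y hy => List.mem_cons_of_mem c hy
    have hcm : c ∈ spn (c :: X) := Submodule.subset_span List.mem_cons_self
    rcases z2 (x e) with h | h
    · apply hsub
      rw [hX]
      exact cyc_erase hx h
    · have h1 : x + c ∈ cyc s t (F.erase e) := by
        apply cyc_erase (Submodule.add_mem _ hx hc)
        rw [Pi.add_apply, h, z2_ne.1 he]
        exact z2_add_self 1
      rw [← hX] at h1
      have h2 : x = (x + c) + c := by
        funext i
        simp only [Pi.add_apply, add_assoc, z2_add_self, add_zero]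
      rw [h2]
      exact Submodule.add_mem _ (hsub h1) hcm

/-- Contraction: the vector of the contracted edge is recovered from the edge in series. -/
def lift (e f : E) : (E → ZMod 2) →ₗ[ZMod 2] (E → ZMod 2) where
  toFun y := fun g => if g = f then y e else y g
  map_add' := by
    intro x y; funext g
    by_cases h : g = f <;> simp [h]
  map_smul' := by
    intro c y; funext g
    by_cases h : g = f <;> simp [h]

theorem lift_apply (e f : E) (y : E → ZMod 2) (g : E) :
    lift e f y g = if g = f then y e else y g := rfl

/-- moving the ends at `v` to `u` -/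
def mv (v u : V) (p : V) : V := if p = v then u else p

theorem inc_mv (s t : E → V) (v u : V) (huv : u ≠ v) (p : V) (e : E) :
    inc (mv v u ∘ s) (mv v u ∘ t) p e =
      if p = v then 0 else if p = u then inc s t u e + inc s t v e else inc s t p e := by
  unfold inc mv
  simp only [Function.comp]
  by_cases h1 : p = v
  · subst h1
    by_cases h2 : s e = p <;> by_cases h3 : t e = p <;> simp [h2, h3, huv]
  · by_cases h2 : p = u
    · subst h2
      have hvp : ¬ v = p := fun h => h1 h.symm
      by_cases h3 : s e = v <;> by_cases h4 : t e = v <;> by_cases h5 : s e = p <;>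
        by_cases h6 : t e = p <;> simp_all
    · have hup : ¬ u = p := fun h => h2 h.symm
      have hvp : ¬ v = p := fun h => h1 h.symm
      by_cases h3 : s e = v <;> by_cases h4 : t e = v <;> simp_all

section contract

variable {s t : E → V} {F : Finset E} {v u : V} {e f : E}

theorem contract_down (huv : u ≠ v) {x : E → ZMod 2} (hx : x ∈ cyc s t F)
    (hfu : inc s t u f = 1) (hfv : inc s t v f = 1) (hfp : ∀ p, p ≠ u → p ≠ v → inc s t p f = 0) :
    (fun g => if g = f then 0 else x g) ∈ cyc (mv v u ∘ s) (mv v u ∘ t) (F.erase f) := by
  refine ⟨fun g hg => ?_, fun p => ?_⟩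
  · by_cases h : g = f
    · simp [h]
    · simp only [h, if_false]
      exact hx.1 g fun h' => hg (mem_erase.2 ⟨h, h'⟩)
  · have h0 : inc (mv v u ∘ s) (mv v u ∘ t) p f = 0 := by
      rw [inc_mv s t v u huv]
      by_cases h1 : p = v
      · simp [h1]
      · by_cases h2 : p = u
        · subst h2
          rw [if_neg h1, if_pos rfl, hfu, hfv]; exact z2_add_self 1
        · simp [h1, h2, hfp p h2 h1]
    have h1 : ∀ g, (if g = f then 0 else x g) * inc (mv v u ∘ s) (mv v u ∘ t) p g =
        x g * inc (mv v u ∘ s) (mv v u ∘ t) p g := by
      intro g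
      by_cases h : g = f
      · subst h; simp [h0]
      · simp [h]
    rw [sum_congr rfl fun g _ => h1 g]
    simp only [inc_mv s t v u huv]
    by_cases h3 : p = v
    · simp [h3]
    · by_cases h2 : p = u
      · subst h2
        simp only [h3, if_false, if_true, mul_add, sum_add_distrib, hx.2, add_zero]
      · simp only [h3, h2, if_false]
        exact hx.2 p

theorem contract_up (huv : u ≠ v) (hf : f ∈ F) (he : e ∈ F) (hef : e ≠ f)
    (hfu : inc s t u f = 1) (hfv : inc s t v f = 1) (hfp : ∀ p, p ≠ u → p ≠ v → inc s t p f = 0)
    (hev : inc s t v e = 1) (hv : ∀ g ∈ F, g ≠ e → g ≠ f → inc s t v g = 0) {y : E → ZMod 2}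
    (hy : y ∈ cyc (mv v u ∘ s) (mv v u ∘ t) (F.erase f)) : lift e f y ∈ cyc s t F := by
  have hlv : ∑ g, lift e f y g * inc s t v g = 0 := by
    have h1 : ∀ g, lift e f y g * inc s t v g =
        (if g = e then y e else 0) + (if g = f then y e else 0) := by
      intro g
      rw [lift_apply]
      by_cases h1 : g = f
      · subst h1
        simp [hfv, hef.symm]
      · by_cases h2 : g = e
        · subst h2
          simp [hev, h1]
        · simp only [h1, h2, if_false, add_zero]
          by_cases h3 : g ∈ F
          · rw [hv g h3 h2 h1, mul_zero]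
          · rw [hy.1 g fun h => h3 (mem_of_mem_erase h), zero_mul]
    rw [sum_congr rfl fun g _ => h1 g, sum_add_distrib]
    simp [z2_add_self]
  have h0 : ∀ p, p ≠ v → inc (mv v u ∘ s) (mv v u ∘ t) p f = 0 := by
    intro p h1
    rw [inc_mv s t v u huv]
    by_cases h2 : p = u
    · subst h2
      rw [if_neg h1, if_pos rfl, hfu, hfv]; exact z2_add_self 1
    · simp [h1, h2, hfp p h2 h1]
  have hp : ∀ p, p ≠ v → ∑ g, lift e f y g * inc (mv v u ∘ s) (mv v u ∘ t) p g = 0 := by
    intro p h1
    rw [← hy.2 p]
    refine sum_congr rfl fun g _ => ?_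
    rw [lift_apply]
    by_cases h : g = f
    · subst h; simp [h0 p h1]
    · simp [h]
  refine ⟨fun g hg => ?_, fun p => ?_⟩
  · rw [lift_apply]
    have h1 : g ≠ f := fun h => hg (h ▸ hf)
    rw [if_neg h1]
    exact hy.1 g fun h => hg (mem_of_mem_erase h)
  · by_cases h1 : p = v
    · rw [h1]; exact hlv
    · have h2 := hp p h1
      simp only [inc_mv s t v u huv] at h2
      by_cases h3 : p = u
      · subst h3
        simp only [h1, if_false, if_true, mul_add, sum_add_distrib, hlv, add_zero] at h2
        exact h2
      · simp only [h1, h3, if_false] at h2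
        exact h2

/-- a generating system is lifted -/
theorem contract_span (huv : u ≠ v) (hf : f ∈ F) (he : e ∈ F) (hef : e ≠ f)
    (hfu : inc s t u f = 1) (hfv : inc s t v f = 1) (hfp : ∀ p, p ≠ u → p ≠ v → inc s t p f = 0)
    (hev : inc s t v e = 1) (hv : ∀ g ∈ F, g ≠ e → g ≠ f → inc s t v g = 0)
    {X : List (E → ZMod 2)} (hX : spn X = cyc (mv v u ∘ s) (mv v u ∘ t) (F.erase f)) :
    spn (X.map (lift e f)) = cyc s t F := by
  apply le_antisymm
  · unfold spn
    rw [Submodule.span_le]
    rintro x hx
    obtain ⟨y, hy, rfl⟩ := List.mem_map.1 (show x ∈ X.map (lift e f) from hx)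
    apply contract_up huv hf he hef hfu hfv hfp hev hv
    rw [← hX]
    exact Submodule.subset_span hy
  · intro x hx
    have hxe : x f = x e := by
      have h1 := hx.2 v
      have h2 : ∀ g, x g * inc s t v g = (if g = e then x e else 0) + (if g = f then x f else 0) := by
        intro g
        by_cases h1 : g = f
        · subst h1; simp [hfv, hef.symm]
        · by_cases h2 : g = e
          · subst h2; simp [hev, h1]
          · simp only [h1, h2, if_false, add_zero]
            by_cases h3 : g ∈ F
            · rw [hv g h3 h2 h1, mul_zero]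
            · rw [hx.1 g h3, zero_mul]
      rw [sum_congr rfl fun g _ => h2 g, sum_add_distrib] at h1
      simp only [sum_ite_eq', mem_univ, if_true] at h1
      exact (z2_eq_of_add h1).symm
    have h1 := contract_down huv hx hfu hfv hfp
    rw [← hX] at h1
    have h2 : x = lift e f (fun g => if g = f then 0 else x g) := by
      funext g
      rw [lift_apply]
      by_cases h : g = f
      · simp [h, hef, hxe]
      · simp [h]
    have h3 : spn (X.map (lift e f)) = (spn X).map (lift e f) := by
      unfold spn
      rw [Submodule.map_span]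
      congr 1
      ext z
      simp
    rw [h3, h2]
    exact Submodule.mem_map_of_mem h1

theorem wt_lift (w : E → ℕ) (hef : e ≠ f) {y : E → ZMod 2} (hy : y f = 0) :
    wt w (lift e f y) = wt (fun g => w g + if g = e then w f else 0) y := by
  unfold wt
  have h1 : ∀ g, (if lift e f y g ≠ 0 then w g else 0) =
      (if y g ≠ 0 then w g else 0) + (if g = f then (if y e ≠ 0 then w f else 0) else 0) := by
    intro g
    rw [lift_apply]
    by_cases h : g = f
    · subst h; simp [hy]
    · simp [h]
  have h2 : ∀ g, (if y g ≠ 0 then w g + (if g = e then w f else 0) else 0) =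
      (if y g ≠ 0 then w g else 0) + (if g = e then (if y e ≠ 0 then w f else 0) else 0) := by
    intro g
    by_cases h : g = e
    · subst h
      by_cases h' : y g = 0 <;> simp [h']
    · simp [h]
  rw [sum_congr rfl fun g _ => h1 g, sum_congr rfl fun g _ => h2 g, sum_add_distrib,
    sum_add_distrib]
  simp

end contract

/-- **Cheap generating systems.** -/
theorem cheap (L : ℕ) (hL : bound (Fintype.card V) ≤ L) :
    ∀ (m : ℕ) (F : Finset E), F.card = m → ∀ (s t : E → V) (w : E → ℕ),
      ∃ X : List (E → ZMod 2), spn X = cyc s t F ∧ total w X ≤ L * ∑ e ∈ F, w e := by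
  intro m
  induction m with
  | zero =>
    intro F hF s t w
    rw [card_eq_zero] at hF
    subst hF
    refine ⟨[], ?_, by simp [total]⟩
    apply le_antisymm
    · unfold spn
      rw [Submodule.span_le]
      intro x hx
      simp at hx
    · intro x hx
      have : x = 0 := by funext e; exact hx.1 e (by simp)
      rw [this]
      exact Submodule.zero_mem _
  | succ m ih =>
    intro F hF s t w
    have hFne : F.Nonempty := by rw [← card_pos]; omega
    -- removing an edge on a cheap cycle
    have key : ∀ c ∈ cyc s t F, c ≠ 0 → (supp c).card ≤ L →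
        ∃ X : List (E → ZMod 2), spn X = cyc s t F ∧ total w X ≤ L * ∑ e ∈ F, w e := by
      intro c hc hc0 hcL
      have hne : (supp c).Nonempty := by
        rw [nonempty_iff_ne_empty]
        intro h
        apply hc0
        funext e
        by_contra h'
        have : e ∈ supp c := mem_supp.2 h'
        rw [h] at this
        simp at this
      obtain ⟨e, he, hmax⟩ := exists_max_image (supp c) w hne
      rw [mem_supp] at he
      have heF : e ∈ F := by
        by_contra h
        exact he (hc.1 e h)
      obtain ⟨X, hX, hXw⟩ := ih (F.erase e) (by rw [card_erase_of_mem heF]; omega) s t w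
      refine ⟨c :: X, span_cons hc he hX, ?_⟩
      have h1 : total w (c :: X) = wt w c + total w X := by simp [total]
      have h2 := wt_le w c e hmax
      have h3 : (supp c).card * w e ≤ L * w e := Nat.mul_le_mul_right _ hcL
      have h4 : ∑ g ∈ F, w g = ∑ g ∈ F.erase e, w g + w e := (sum_erase_add _ _ heF).symm
      rw [h1, h4, mul_add]
      omega
    have hL1 : 1 ≤ L := by
      have h1 : (1 : ℝ) ≤ bound (Fintype.card V) := by
        unfold bound
        have h2 : 0 ≤ Real.log (Fintype.card V) := Real.log_natCast_nonneg _
        have h3 : 0 ≤ Real.log (1 + 1 / 2) := (Real.log_pos (by norm_num)).le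
        have := div_nonneg h2 h3
        linarith
      exact_mod_cast h1.trans hL
    by_cases hloop : ∃ e ∈ F, s e = t e
    · -- a loop
      obtain ⟨e, he, hst⟩ := hloop
      apply key (Pi.single e 1)
      · refine ⟨fun g hg => ?_, fun p => ?_⟩
        · rw [Pi.single_eq_of_ne]
          intro h; exact hg (h ▸ he)
        · have : ∀ g, (Pi.single e (1 : ZMod 2) : E → ZMod 2) g * inc s t p g = 0 := by
            intro g
            by_cases h : g = e
            · subst h
              unfold inc
              rw [hst, z2_add_self, mul_zero]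
            · rw [Pi.single_eq_of_ne h, zero_mul]
          exact sum_eq_zero fun g _ => this g
      · intro h
        have := congrFun h e
        simp at this
      · refine le_trans ?_ hL1
        have : supp (Pi.single e (1 : ZMod 2) : E → ZMod 2) ⊆ {e} := by
          intro g hg
          rw [mem_supp] at hg
          rw [mem_singleton]
          by_contra h
          exact hg (Pi.single_eq_of_ne h _)
        simpa using card_le_card this
    push Not at hloop
    by_cases hdeg : ∃ v, (∃ e ∈ F, s e = v ∨ t e = v) ∧
        (F.filter fun e => s e = v ∨ t e = v).card < 3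
    swap
    · push Not at hdeg
      obtain ⟨c, hc, hc0, hcb⟩ := short s t F hFne hloop (fun v hv => hdeg v hv)
      exact key c hc hc0 (by exact_mod_cast hcb.trans hL)
    obtain ⟨v, ⟨f, hf, hfv⟩, hlt⟩ := hdeg
    have hfmem : f ∈ F.filter fun e => s e = v ∨ t e = v := mem_filter.2 ⟨hf, hfv⟩
    -- the other end of `f`
    obtain ⟨u, huv, hfu, hfv', hfp⟩ : ∃ u, u ≠ v ∧ inc s t u f = 1 ∧ inc s t v f = 1 ∧
        ∀ p, p ≠ u → p ≠ v → inc s t p f = 0 := by
      have hne := hloop f hf
      rcases hfv with h | h
      · refine ⟨t f, fun h' => hne (h.trans h'.symm), ?_, ?_, ?_⟩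
        · simp [inc, hne]
        · rw [← h]; simp [inc, hne.symm]
        · intro p h1 h2
          simp [inc, h ▸ h2.symm, h1.symm]
      · refine ⟨s f, fun h' => hne (h'.trans h.symm), ?_, ?_, ?_⟩
        · simp [inc, hne.symm]
        · rw [← h]; simp [inc, hne]
        · intro p h1 h2
          simp [inc, h ▸ h2.symm, h1.symm]
    have hinc0 : ∀ g ∈ F, g ∉ (F.filter fun e => s e = v ∨ t e = v) → inc s t v g = 0 := by
      intro g hg hgn
      have : ¬ (s g = v ∨ t g = v) := fun h => hgn (mem_filter.2 ⟨hg, h⟩)
      push Not at this
      simp [inc, this.1, this.2]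
    by_cases h1 : ∃ e ∈ F, e ≠ f ∧ (s e = v ∨ t e = v)
    · -- two edges in series
      obtain ⟨e, he, hef, hev⟩ := h1
      have hemem : e ∈ F.filter fun e => s e = v ∨ t e = v := mem_filter.2 ⟨he, hev⟩
      have hpair : (F.filter fun e => s e = v ∨ t e = v) = {e, f} := by
        symm
        apply eq_of_subset_of_card_le
        · intro g hg
          rw [mem_insert, mem_singleton] at hg
          rcases hg with h | h
          · rw [h]; exact hemem
          · rw [h]; exact hfmem
        · rw [card_pair hef]; omega
      have hev' : inc s t v e = 1 := by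
        have hne := hloop e he
        rcases hev with h | h
        · rw [← h]; simp [inc, hne.symm]
        · rw [← h]; simp [inc, hne]
      have hv : ∀ g ∈ F, g ≠ e → g ≠ f → inc s t v g = 0 := by
        intro g hg h1 h2
        apply hinc0 g hg
        rw [hpair, mem_insert, mem_singleton]
        rintro (h | h)
        · exact h1 h
        · exact h2 h
      obtain ⟨X, hX, hXw⟩ := ih (F.erase f) (by rw [card_erase_of_mem hf]; omega) (mv v u ∘ s)
        (mv v u ∘ t) (fun g => w g + if g = e then w f else 0)
      refine ⟨X.map (lift e f), contract_span huv hf he hef hfu hfv' hfp hev' hv hX, ?_⟩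
      have h2 : total w (X.map (lift e f)) =
          total (fun g => w g + if g = e then w f else 0) X := by
        unfold total
        rw [List.map_map]
        congr 1
        apply List.map_congr_left
        intro y hy
        rw [Function.comp]
        apply wt_lift w hef
        have : y ∈ cyc (mv v u ∘ s) (mv v u ∘ t) (F.erase f) := by
          rw [← hX]; exact Submodule.subset_span hy
        exact this.1 f (notMem_erase f F)
      have h3 : ∑ g ∈ F.erase f, (w g + if g = e then w f else 0) = ∑ g ∈ F, w g := by
        rw [sum_add_distrib, ← sum_erase_add _ _ hf]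
        congr 1
        rw [sum_ite_eq', if_pos (mem_erase.2 ⟨hef, he⟩)]
      rw [h2, ← h3]
      exact hXw
    · -- a leaf
      push Not at h1
      obtain ⟨X, hX, hXw⟩ := ih (F.erase f) (by rw [card_erase_of_mem hf]; omega) s t w
      refine ⟨X, ?_, ?_⟩
      · rw [hX]
        apply le_antisymm (cyc_mono (erase_subset f F))
        intro x hx
        apply cyc_erase hx
        have h2 := hx.2 v
        have h3 : ∀ g, x g * inc s t v g = if g = f then x f else 0 := by
          intro g
          by_cases h3 : g = f
          · subst h3; simp [hfv']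
          · rw [if_neg h3]
            by_cases h4 : g ∈ F
            · have := h1 g h4 h3
              simp [inc, this.1, this.2]
            · rw [hx.1 g h4, zero_mul]
        rw [sum_congr rfl fun g _ => h3 g] at h2
        simpa using h2
      · refine hXw.trans (Nat.mul_le_mul_left _ (sum_le_sum_of_subset (erase_subset f F)))

end

end Pool.Agent.Helper36.BN
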