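import Pool.Agent.H25.LD.P3

/-!
Cycle spaces of multigraphs over `ZMod 2`, and short cycles when all degrees are at least three.
-/

set_option autoImplicit false
set_option linter.unusedSectionVars false

namespace Pool.Agent.Helper36.BN

open Finset

section

variable {V E : Type} [Fintype V] [DecidableEq V] [Fintype E] [DecidableEq E]

/-- the number of ends of `e` at `v`, modulo two -/
def inc (s t : E → V) (v : V) (e : E) : ZMod 2 :=
  (if s e = v then 1 else 0) + (if t e = v then 1 else 0)

/-- the cycle space of the multigraph with the ends `s e`, `t e` and the edges in `F` -/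
def cyc (s t : E → V) (F : Finset E) : Submodule (ZMod 2) (E → ZMod 2) where
  carrier := {x | (∀ e ∉ F, x e = 0) ∧ ∀ v, ∑ e, x e * inc s t v e = 0}
  zero_mem' := by constructor <;> simp
  add_mem' := by
    intro x y hx hy
    refine ⟨fun e he => by simp [hx.1 e he, hy.1 e he], fun v => ?_⟩
    have : ∑ e, (x + y) e * inc s t v e = ∑ e, x e * inc s t v e + ∑ e, y e * inc s t v e := by
      rw [← sum_add_distrib]
      exact sum_congr rfl fun e _ => by simp [add_mul]
    rw [this, hx.2 v, hy.2 v, add_zero]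
  smul_mem' := by
    intro c x hx
    refine ⟨fun e he => by simp [hx.1 e he], fun v => ?_⟩
    have : ∑ e, (c • x) e * inc s t v e = c * ∑ e, x e * inc s t v e := by
      rw [mul_sum]
      exact sum_congr rfl fun e _ => by simp [mul_assoc]
    rw [this, hx.2 v, mul_zero]

theorem mem_cyc {s t : E → V} {F : Finset E} {x : E → ZMod 2} :
    x ∈ cyc s t F ↔ (∀ e ∉ F, x e = 0) ∧ ∀ v, ∑ e, x e * inc s t v e = 0 := Iff.rfl

/-- the support of a vector -/
def supp (x : E → ZMod 2) : Finset E := univ.filter fun e => x e ≠ 0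

theorem mem_supp {x : E → ZMod 2} {e : E} : e ∈ supp x ↔ x e ≠ 0 := by simp [supp]

/-- the number `4 (log n / log (3/2) + 2) + 2` -/
noncomputable def bound (n : ℕ) : ℝ := 4 * (Real.log n / Real.log (1 + 1 / 2) + 2) + 2

/-- If the edges `F` are no loops and every vertex on an edge of `F` is on at least three of them,
there is a short cycle. -/
theorem short (s t : E → V) (F : Finset E) (hF : F.Nonempty) (hl : ∀ e ∈ F, s e ≠ t e)
    (hd : ∀ v, (∃ e ∈ F, s e = v ∨ t e = v) → 3 ≤ (F.filter fun e => s e = v ∨ t e = v).card) :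
    ∃ x ∈ cyc s t F, x ≠ 0 ∧ ((supp x).card : ℝ) ≤ bound (Fintype.card V) := by
  classical
  let V' := {v : V // ∃ e ∈ F, s e = v ∨ t e = v}
  let E' := {e : E // e ∈ F}
  let a : E' → V' := fun e => ⟨s e.1, e.1, e.2, Or.inl rfl⟩
  let b : E' → V' := fun e => ⟨t e.1, e.1, e.2, Or.inr rfl⟩
  have hab : ∀ e, a e ≠ b e := fun e h => hl e.1 e.2 (congrArg Subtype.val h)
  let ends : E' → Finset V' := fun e => {a e, b e}
  have h2 : ∀ e, (ends e).card = 2 := fun e => card_pair (hab e)
  have hV' : 0 < Fintype.card V' := by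
    obtain ⟨e, he⟩ := hF
    exact Fintype.card_pos_iff.2 ⟨⟨s e, e, he, Or.inl rfl⟩⟩
  -- double counting
  have hcount : 3 * Fintype.card V' ≤ 2 * Fintype.card E' := by
    have h1 : ∑ v : V', 3 ≤ ∑ v : V', (univ.filter fun e : E' => v ∈ ends e).card := by
      refine sum_le_sum fun v _ => ?_
      refine (hd v.1 v.2).trans ?_
      refine card_le_card_of_surjOn (fun e : E' => e.1) ?_
      intro e he
      simp only [coe_filter, Set.mem_ofPred_eq] at he
      refine ⟨⟨e, he.1⟩, ?_, rfl⟩
      simp only [coe_filter, mem_univ, true_and, Set.mem_ofPred_eq, ends, mem_insert, mem_singleton,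
        a, b]
      rcases he.2 with h | h
      · left; exact Subtype.ext h.symm
      · right; exact Subtype.ext h.symm
    have h3 : ∑ v : V', (univ.filter fun e : E' => v ∈ ends e).card = ∑ e : E', (ends e).card := by
      simp only [card_eq_sum_ones, sum_filter]
      rw [sum_comm]
      refine sum_congr rfl fun e _ => ?_
      rw [← sum_filter]
      congr 1
      ext v
      simp
    have h4 : ∑ e : E', (ends e).card = 2 * Fintype.card E' := by
      rw [sum_congr rfl (fun e _ => h2 e)]
      simp [mul_comm]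
    rw [h3, h4] at h1
    simpa [mul_comm] using h1
  obtain ⟨T, hT, hTc, hTb⟩ := Pool.Agent.H25.LD.p3 V' E' ends (1 / 2) (by norm_num) h2 hV' (by
    have : (3 : ℝ) * Fintype.card V' ≤ 2 * Fintype.card E' := by exact_mod_cast hcount
    linarith)
  -- more edges than vertices
  let W : Finset V' := T.biUnion ends
  let f : (T → ZMod 2) →ₗ[ZMod 2] (W → ZMod 2) :=
    { toFun := fun y v => ∑ e : T, y e * inc a b v.1 e.1
      map_add' := by
        intro y z; funext v
        simp [add_mul, sum_add_distrib]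
      map_smul' := by
        intro c y; funext v
        simp [mul_assoc, mul_sum] }
  have hker : LinearMap.ker f ≠ ⊥ := by
    apply LinearMap.ker_ne_bot_of_finrank_lt
    rw [Module.finrank_fintype_fun_eq_card, Module.finrank_fintype_fun_eq_card, Fintype.card_coe,
      Fintype.card_coe]
    exact hTc
  obtain ⟨y, hy, hy0⟩ := (Submodule.ne_bot_iff _).1 hker
  have hfy : ∀ v : W, ∑ e : T, y e * inc a b v.1 e.1 = 0 := fun v => congrFun hy v
  -- the extension by zero
  let x : E → ZMod 2 := fun e => if h : ∃ h : e ∈ F, (⟨e, h⟩ : E') ∈ T then y ⟨⟨e, h.1⟩, h.2⟩ else 0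
  have hxT : ∀ e : T, x e.1.1 = y e := by
    intro e
    have h : ∃ h : e.1.1 ∈ F, (⟨e.1.1, h⟩ : E') ∈ T := ⟨e.1.2, e.2⟩
    simp only [x, dif_pos h]
    rfl
  have hx0 : ∀ e, (¬ ∃ h : e ∈ F, (⟨e, h⟩ : E') ∈ T) → x e = 0 := by
    intro e h
    simp only [x, dif_neg h]
  have hsum : ∀ g : E → ZMod 2, ∑ e, x e * g e = ∑ e : T, y e * g e.1.1 := by
    intro g
    symm
    rw [← sum_subset (subset_univ (univ.image fun e : T => e.1.1))]
    · rw [sum_image]
      · exact sum_congr rfl fun e _ => by rw [hxT]
      · intro e _ e' _ h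
        exact Subtype.ext (Subtype.ext h)
    · intro e _ he
      rw [hx0, zero_mul]
      rintro ⟨h, h'⟩
      exact he (mem_image.2 ⟨⟨⟨e, h⟩, h'⟩, mem_univ _, rfl⟩)
  refine ⟨x, ⟨fun e he => hx0 e fun h => he h.1, fun v => ?_⟩, ?_, ?_⟩
  · rw [hsum]
    by_cases hv : ∃ h : (∃ e ∈ F, s e = v ∨ t e = v), (⟨v, h⟩ : V') ∈ W
    · obtain ⟨h, hvW⟩ := hv
      rw [← hfy ⟨⟨v, h⟩, hvW⟩]
      refine sum_congr rfl fun e _ => ?_
      have e1 : (a e.1 = (⟨v, h⟩ : V')) ↔ s e.1.1 = v := Subtype.ext_iff
      have e2 : (b e.1 = (⟨v, h⟩ : V')) ↔ t e.1.1 = v := Subtype.ext_iff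
      simp only [inc, e1, e2]
    · refine sum_eq_zero fun e _ => ?_
      have h1 : s e.1.1 ≠ v := by
        intro h
        apply hv
        refine ⟨⟨e.1.1, e.1.2, Or.inl h⟩, mem_biUnion.2 ⟨e.1, e.2, ?_⟩⟩
        simp only [ends, mem_insert, a]
        left; exact Subtype.ext h.symm
      have h2 : t e.1.1 ≠ v := by
        intro h
        apply hv
        refine ⟨⟨e.1.1, e.1.2, Or.inr h⟩, mem_biUnion.2 ⟨e.1, e.2, ?_⟩⟩
        simp only [ends, mem_insert, mem_singleton, b]
        right; exact Subtype.ext h.symm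
      simp [inc, h1, h2]
  · intro h
    apply hy0
    funext e
    rw [← hxT e, h]; rfl
  · have h1 : (supp x).card ≤ T.card := by
      have : supp x ⊆ T.image Subtype.val := by
        intro e he
        rw [mem_supp] at he
        by_contra hc
        apply he
        apply hx0
        rintro ⟨h, h'⟩
        exact hc (mem_image.2 ⟨_, h', rfl⟩)
      exact (card_le_card this).trans card_image_le
    have h5 : Real.log (Fintype.card V') ≤ Real.log (Fintype.card V) := by
      apply Real.log_le_log (by exact_mod_cast hV')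
      exact_mod_cast Fintype.card_subtype_le _
    have h6 : 0 < Real.log (1 + 1 / 2) := Real.log_pos (by norm_num)
    have h7 := div_le_div_of_nonneg_right h5 h6.le
    have h8 : ((supp x).card : ℝ) ≤ T.card := by exact_mod_cast h1
    unfold bound
    linarith

end

end Pool.Agent.Helper36.BN
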